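import Mathlib

set_option autoImplicit false

/-!
# A 2-arc-strong split digraph of minimum degree five without a strong arc decomposition

This file is not a hand-in: arXiv 2408.02260 (Ai, He, Li, Qin, Wang) characterises all split digraphs
without a strong arc decomposition, so the result is treated as known.

Bang-Jensen and Yeo showed that every 2-arc-strong semicomplete digraph except one digraph on four
vertices has a strong arc decomposition. The question is whether every 2-arc-strong split digraph
all of whose vertices have degree (in-degree plus out-degree) at least five has one. We show that the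
answer is negative: there is a counterexample with six vertices and sixteen arcs,

`02 03 05 10 14 21 25 31 32 34 35 41 42 43 50 52`.

The vertices `4`, `5` are not adjacent and the other four vertices form a tournament. Every proper
nonempty set of vertices is left by at least two arcs, and the degrees are `5, 5, 6, 6, 5, 5`.

The reason why there is no decomposition is an odd cycle of cuts: in both parts of a decomposition
every nonempty proper set of vertices is left by an arc, so if a set is left by exactly two arcs, then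
these two arcs are in different parts. The sets `{1}`, `{1, 2, 3, 4, 5}`, `{2, 5}`, `{0, 2, 5}`,
`{0, 1, 2, 5}` are left by exactly two arcs, namely

`{14, 10}`, `{10, 50}`, `{50, 21}`, `{21, 03}`, `{03, 14}`,

and the five arcs `14`, `10`, `50`, `21`, `03` form a cycle of length five.
-/

namespace Pool.Agent.T2H43.Known.SplitDigraph

section defs
variable {V : Type}

/-- A digraph is given by its adjacency relation `A`: `A u v` means that `uv` is an arc. There are no
parallel arcs; two opposite arcs are allowed. No loops: -/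
def Loopless (A : V → V → Prop) : Prop := ∀ v, ¬ A v v

/-- Split digraph: the vertex set is the union of two disjoint sets `V₁` and `V₂` (the complement of
`V₁`), there are no arcs inside `V₁`, and any two distinct vertices of `V₂` are joined by an arc. -/
def IsSplit (A : V → V → Prop) : Prop :=
  ∃ V₁ : Set V, (∀ u ∈ V₁, ∀ v ∈ V₁, ¬ A u v) ∧
    (∀ u ∉ V₁, ∀ v ∉ V₁, u ≠ v → A u v ∨ A v u)

/-- strongly connected: there is a directed path from every vertex to every vertex -/
def IsStrong (A : V → V → Prop) : Prop := ∀ u v, Relation.ReflTransGen A u v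

/-- `k`-arc-strong: strongly connected after the removal of any set `X` of fewer than `k` arcs -/
def IsArcStrong (k : ℕ) (A : V → V → Prop) : Prop :=
  ∀ X : Finset (V × V), (∀ e ∈ X, A e.1 e.2) → X.card < k → IsStrong fun u v => A u v ∧ (u, v) ∉ X

/-- the degree: the sum of the out-degree and the in-degree -/
noncomputable def degree (A : V → V → Prop) (v : V) : ℕ :=
  {w | A v w}.ncard + {w | A w v}.ncard

/-- strong arc decomposition: a partition of the set of arcs into two sets both of which give
strongly connected spanning subdigraphs -/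
def HasStrongArcDecomposition (A : V → V → Prop) : Prop :=
  ∃ A₁ A₂ : V → V → Prop, (∀ u v, A u v ↔ A₁ u v ∨ A₂ u v) ∧ (∀ u v, ¬ (A₁ u v ∧ A₂ u v)) ∧
    IsStrong A₁ ∧ IsStrong A₂

/-- a nonempty proper set of vertices of a strong digraph is left by an arc -/
lemma IsStrong.leave {A : V → V → Prop} (h : IsStrong A) (S : V → Prop) (u v : V) (hu : S u)
    (hv : ¬ S v) : ∃ a b, S a ∧ ¬ S b ∧ A a b := by
  by_contra hcon
  push Not at hcon
  have h2 : ∀ w, Relation.ReflTransGen A u w → S w := by
    intro w hw
    induction hw with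
    | refl => exact hu
    | tail _ hbc ih =>
      by_contra hc
      exact hcon _ _ ih hc hbc
  exact hv (h2 v (h u v))

/-- a digraph all of whose nonempty proper sets of vertices are left by an arc is strong -/
lemma strong_of_leave {A : V → V → Prop}
    (h : ∀ S : Set V, S.Nonempty → S ≠ Set.univ → ∃ a ∈ S, ∃ b ∉ S, A a b) : IsStrong A := by
  intro u v
  by_contra hcon
  obtain ⟨a, ha, b, hb, hab⟩ := h {w | Relation.ReflTransGen A u w} ⟨u, Relation.ReflTransGen.refl⟩
    (fun h => hcon (by
      have : v ∈ {w | Relation.ReflTransGen A u w} := by rw [h]; trivial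
      exact this))
  exact hb (Relation.ReflTransGen.tail ha hab)

end defs

/-- the rows of the adjacency matrix, as binary numbers: the arcs are `02 03 05 10 14 21 25 31 32 34 35
41 42 43 50 52` -/
def row (u : ℕ) : ℕ := [44, 17, 34, 54, 14, 5].getD u 0

/-- the digraph -/
def D (u v : Fin 6) : Prop := (row u).testBit v = true

instance : DecidableRel D := fun u v => inferInstanceAs (Decidable ((row u).testBit v = true))

/-- the arcs -/
def arcs : Finset (Fin 6 × Fin 6) := Finset.univ.filter fun e => D e.1 e.2

lemma two_leave : ∀ S : Finset (Fin 6), S.Nonempty → S ≠ Finset.univ →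
    2 ≤ (arcs.filter fun e => e.1 ∈ S ∧ e.2 ∉ S).card := by
  decide +kernel

lemma D_arcStrong : IsArcStrong 2 D := by
  classical
  intro X _ hX
  apply strong_of_leave
  intro S hS hS'
  have h1 := two_leave S.toFinset (by simpa using hS) (by
    intro h
    apply hS'
    have := congrArg (fun T : Finset (Fin 6) => (T : Set (Fin 6))) h
    simpa using this)
  obtain ⟨e, he, heX⟩ : ∃ e ∈ (arcs.filter fun e => e.1 ∈ S.toFinset ∧ e.2 ∉ S.toFinset), e ∉ X := by
    by_contra hcon
    push Not at hcon
    have := Finset.card_le_card (show (arcs.filter fun e => e.1 ∈ S.toFinset ∧ e.2 ∉ S.toFinset) ⊆ X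
      from fun e he => hcon e he)
    omega
  rw [Finset.mem_filter, Set.mem_toFinset, Set.mem_toFinset] at he
  exact ⟨e.1, he.2.1, e.2, he.2.2, (Finset.mem_filter.1 he.1).2, heX⟩

lemma deg_aux : ∀ v : Fin 6, 5 ≤ (Finset.univ.filter fun w => D v w).card +
    (Finset.univ.filter fun w => D w v).card := by
  decide +kernel

lemma D_degree (v : Fin 6) : 5 ≤ degree D v := by
  have h1 : {w | D v w}.ncard = (Finset.univ.filter fun w => D v w).card := by
    rw [← Set.ncard_coe_finset]
    congr 1
    ext w
    simp
  have h2 : {w | D w v}.ncard = (Finset.univ.filter fun w => D w v).card := by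
    rw [← Set.ncard_coe_finset]
    congr 1
    ext w
    simp
  rw [degree, h1, h2]
  exact deg_aux v

lemma D_no_decomposition : ¬ HasStrongArcDecomposition D := by
  rintro ⟨A₁, A₂, h, h12, hA₁, hA₂⟩
  -- two arcs which are all arcs leaving a set are in different parts
  have key : ∀ (S : Finset (Fin 6)) (u v a b a' b' : Fin 6), u ∈ S → v ∉ S →
      (∀ x ∈ S, ∀ y ∉ S, D x y → (x = a ∧ y = b) ∨ (x = a' ∧ y = b')) →
      (A₁ a b ∨ A₁ a' b') ∧ (A₂ a b ∨ A₂ a' b') := by
    intro S u v a b a' b' hu hv hS
    constructor
    · obtain ⟨x, y, hx, hy, hxy⟩ := hA₁.leave (fun x => x ∈ S) u v hu hv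
      rcases hS x hx y hy ((h x y).2 (Or.inl hxy)) with ⟨rfl, rfl⟩ | ⟨rfl, rfl⟩
      · exact Or.inl hxy
      · exact Or.inr hxy
    · obtain ⟨x, y, hx, hy, hxy⟩ := hA₂.leave (fun x => x ∈ S) u v hu hv
      rcases hS x hx y hy ((h x y).2 (Or.inr hxy)) with ⟨rfl, rfl⟩ | ⟨rfl, rfl⟩
      · exact Or.inl hxy
      · exact Or.inr hxy
  have k1 := key {1} 1 0 1 4 1 0 (by decide +kernel) (by decide +kernel) (by decide +kernel)
  have k2 := key {1, 2, 3, 4, 5} 1 0 1 0 5 0 (by decide +kernel) (by decide +kernel)
    (by decide +kernel)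
  have k3 := key {2, 5} 2 0 5 0 2 1 (by decide +kernel) (by decide +kernel) (by decide +kernel)
  have k4 := key {0, 2, 5} 2 1 2 1 0 3 (by decide +kernel) (by decide +kernel) (by decide +kernel)
  have k5 := key {0, 1, 2, 5} 2 3 0 3 1 4 (by decide +kernel) (by decide +kernel)
    (by decide +kernel)
  have n1 := h12 1 4
  have n2 := h12 1 0
  have n3 := h12 5 0
  have n4 := h12 2 1
  have n5 := h12 0 3
  rcases k1.1 with a | a
  · have b := k1.2.resolve_left (fun x => n1 ⟨a, x⟩)
    have c := k2.1.resolve_left (fun x => n2 ⟨x, b⟩)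
    have d := k3.2.resolve_left (fun x => n3 ⟨c, x⟩)
    have e := k4.1.resolve_left (fun x => n4 ⟨x, d⟩)
    have f := k5.2.resolve_left (fun x => n5 ⟨e, x⟩)
    exact n1 ⟨a, f⟩
  · have b := k2.2.resolve_left (fun x => n2 ⟨a, x⟩)
    have c := k3.1.resolve_left (fun x => n3 ⟨x, b⟩)
    have d := k4.2.resolve_left (fun x => n4 ⟨c, x⟩)
    have e := k5.1.resolve_left (fun x => n5 ⟨x, d⟩)
    have f := k1.2.resolve_left (fun x => n1 ⟨e, x⟩)
    exact n2 ⟨a, f⟩

/-- **The counterexample.** -/
theorem result : ∃ A : Fin 6 → Fin 6 → Prop, Loopless A ∧ IsSplit A ∧ IsArcStrong 2 A ∧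
    (∀ v, 5 ≤ degree A v) ∧ ¬ HasStrongArcDecomposition A := by
  have h0 : ∀ v : Fin 6, ¬ D v v := by decide +kernel
  refine ⟨D, h0, ⟨{v | v = 4 ∨ v = 5}, ?_, ?_⟩, D_arcStrong, D_degree, D_no_decomposition⟩
  · have : ∀ u v : Fin 6, (u = 4 ∨ u = 5) → (v = 4 ∨ v = 5) → ¬ D u v := by decide +kernel
    exact fun u hu v hv => this u v hu hv
  · have : ∀ u v : Fin 6, ¬ (u = 4 ∨ u = 5) → ¬ (v = 4 ∨ v = 5) → u ≠ v → D u v ∨ D v u := by
      decide +kernel
    exact fun u hu v hv => this u v hu hv

end Pool.Agent.T2H43.Known.SplitDigraph
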